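import Pool.Agent.Q149.Wedge

open Q149.Fun

namespace Pool.Agent.Results.MP_92e33a_gt.SkeletalNotOpen

/-- There is a finitary normal functor of finite degree on the category of compacta which is
skeletal but is not open and not finitely bicommutative. -/
theorem result : ∃ F : CompFunctor,
    IsNormal F ∧ (∀ X : CompHaus.{0}, Infinite X → weight (F.obj X) = weight X) ∧
      IsFinitary F ∧ FiniteDegree F ∧ SkeletalFunctor F ∧
      ¬ OpenFunctor F ∧ ¬ FinBicommutative F :=
  ⟨W, W_normal, W_weight_eq, W_finitary, W_degree, W_skeletal, W_not_open,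
    fun h => W_not_bicomm (h sq sq_fin sq_surj sq_bicomm)⟩

end Pool.Agent.Results.MP_92e33a_gt.SkeletalNotOpen
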